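import Pool.Agent.Run7.h19.HP.Iface

set_option autoImplicit false

open Module Submodule Finset Pool.Agent.H99.SubDeg

namespace Run7.h303.HP

open scoped Classical in
theorem t_AP : Run7.h19.HP.S_AP := by
  intro K _ _ V _ _ _ P T T' A a hq hP _ hPT' hA hmeet hcard
  set U : Submodule K V := T ⊓ (T' ⊔ P) with hU
  -- every point of `A` lies in `U`
  have hAU : A ⊆ pts U := by
    intro Q hQ
    have hQT := hA hQ
    simp only [pts, Finset.mem_filter, Finset.mem_univ, true_and] at hQT ⊢
    refine ⟨hQT.1, le_inf hQT.2 ?_⟩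
    obtain ⟨R, hR1, hR2⟩ := exists_pt _ (hmeet Q hQ)
    by_contra hcon
    -- `Q` outside `T' ⊔ P`
    have h1 : R ≤ (P ⊔ Q) := hR2.trans inf_le_left
    have h2 : R ≤ T' := hR2.trans inf_le_right
    have hRP : ¬ R ≤ P := by
      intro h
      have := point_eq hR1 hP h
      exact hPT' (this ▸ h2)
    have h3 : finrank K (P ⊔ R : Submodule K V) = 2 := by
      rw [finrank_sup_point P R hR1 hRP, hP]
    have hQP : ¬ Q ≤ P := by
      intro h
      exact hcon (h.trans le_sup_right)
    have h4 : finrank K (P ⊔ Q : Submodule K V) = 2 := by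
      rw [finrank_sup_point P Q hQT.1 hQP, hP]
    have h5 : P ⊔ R = P ⊔ Q :=
      eq_of_le_of_finrank_eq (sup_le le_sup_left h1) (by rw [h3, h4])
    apply hcon
    calc Q ≤ P ⊔ Q := le_sup_right
      _ = P ⊔ R := h5.symm
      _ ≤ T' ⊔ P := sup_le le_sup_right (h2.trans le_sup_left)
  have hle := Finset.card_le_card hAU
  have h6 := pts_card U
  rw [hq] at h6
  have h7 : (pts U).card = 2 ^ finrank K U - 1 := by simpa using h6
  have h8 : 2 ^ a < 2 ^ finrank K U := by
    have : 0 < 2 ^ finrank K U := by positivity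
    omega
  have h9 : a < finrank K U := (Nat.pow_lt_pow_iff_right (by norm_num)).mp h8
  have h10 := Submodule.finrank_sup_add_finrank_inf_eq U T'
  have h11 : U ⊓ T' = T' ⊓ T := by
    apply le_antisymm
    · exact le_inf inf_le_right (inf_le_left.trans inf_le_left)
    · exact le_inf (le_inf inf_le_right (inf_le_left.trans le_sup_left)) inf_le_left
  have h12 : finrank K (U ⊔ T' : Submodule K V) ≤ finrank K (T' ⊔ P : Submodule K V) :=
    Submodule.finrank_mono (sup_le inf_le_right le_sup_left)
  have h13 := finrank_sup_point T' P hP hPT'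
  rw [h11] at h10
  omega

end Run7.h303.HP
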