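import Pool.Agent.Run7.h19.HP.Iface

set_option autoImplicit false

open Module Submodule Finset Pool.Agent.H99.SubDeg

namespace Run7.h303.HP

lemma exists_vecs {K : Type} [Field K] [Finite K] {V : Type} [AddCommGroup V] [Module K V]
    [Finite V] (m : ℕ) : ∀ (A B : Submodule K V), A ≤ B → finrank K B ≤ finrank K A + m →
    ∃ v : Fin m → V, B = A ⊔ span K (Set.range v) := by
  induction m with
  | zero =>
    intro A B h hm
    refine ⟨fun i => i.elim0, ?_⟩
    have : A = B := eq_of_le_of_finrank_le h (by omega)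
    simp [this]
  | succ m ih =>
    intro A B h hm
    by_cases hAB : A = B
    · refine ⟨fun _ => 0, ?_⟩
      have : span K (Set.range (fun _ : Fin (m + 1) => (0 : V))) = ⊥ := by
        rw [Set.range_const]
        simp
      rw [this, sup_bot_eq, hAB]
    · obtain ⟨v, hvB, hvA⟩ := SetLike.exists_of_lt (lt_of_le_of_ne h hAB)
      have hv0 : v ≠ 0 := by rintro rfl; exact hvA A.zero_mem
      have h1 : finrank K (A ⊔ span K {v} : Submodule K V) = finrank K A + 1 :=
        finrank_sup_point A _ (finrank_span_singleton hv0)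
          (fun hh => hvA ((span_singleton_le_iff_mem v A).mp hh))
      obtain ⟨w, hw⟩ := ih (A ⊔ span K {v}) B
        (sup_le h ((span_singleton_le_iff_mem v B).mpr hvB)) (by omega)
      refine ⟨Fin.cons v w, ?_⟩
      rw [Fin.range_cons, span_insert, ← sup_assoc]
      exact hw

open scoped Classical in
theorem t_NEAR : Run7.h19.HP.S_NEAR := by
  intro K _ _ V _ _ _ k τ j T hq hn hk hT hτk hk8 hj
  haveI i1 : Finite (↥T →ₗ[K] (Fin 10 → K)) := DFunLike.finite _
  haveI : Fintype (↥T →ₗ[K] (Fin 10 → K)) := Fintype.ofFinite _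
  haveI : Fintype V := Fintype.ofFinite V
  let Φ : (↥T →ₗ[K] (Fin 10 → K)) × (Fin 11 → V) → Submodule K V :=
    fun x => (LinearMap.ker x.1).map T.subtype ⊔ span K (Set.range x.2)
  have hsub : (univ.filter (fun S : Submodule K V => finrank K S = j ∧
      τ ≤ finrank K (S ⊓ T : Submodule K V) + 10))
      ⊆ (univ : Finset ((↥T →ₗ[K] (Fin 10 → K)) × (Fin 11 → V))).image Φ := by
    intro S hS
    simp only [Finset.mem_filter, Finset.mem_univ, true_and] at hS
    obtain ⟨R, _, hR1, hR2⟩ := exists_between' (τ - 10) ⊥ (S ⊓ T) bot_le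
      (by rw [finrank_bot]; omega)
    have hR3 : finrank K R = τ - 10 := by rw [hR2, finrank_bot]; omega
    set R' : Submodule K T := R.comap T.subtype with hR'
    have hmap : R'.map T.subtype = R := by
      rw [hR', map_comap_subtype, inf_eq_right.mpr (hR1.trans inf_le_right)]
    have hR4 : finrank K R' = τ - 10 := by
      rw [← finrank_map_subtype_eq T R', hmap, hR3]
    have hquot : finrank K (T ⧸ R') = 10 := by
      have := Submodule.finrank_quotient_add_finrank R'
      omega
    let e : (T ⧸ R') ≃ₗ[K] (Fin 10 → K) := LinearEquiv.ofFinrankEq _ _ (by rw [hquot]; simp)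
    let φ : T →ₗ[K] (Fin 10 → K) := e.toLinearMap ∘ₗ R'.mkQ
    have hker : LinearMap.ker φ = R' := by
      ext x
      simp [φ]
    obtain ⟨v, hv⟩ := exists_vecs 11 R S (hR1.trans inf_le_left) (by rw [hR3, hS.1]; omega)
    rw [Finset.mem_image]
    refine ⟨(φ, v), Finset.mem_univ _, ?_⟩
    simp only [Φ]
    rw [hker, hmap, ← hv]
  refine (Finset.card_le_card hsub).trans (Finset.card_image_le.trans ?_)
  have c1 : Fintype.card (↥T →ₗ[K] (Fin 10 → K)) = 2 ^ (τ * 10) := by
    rw [← Nat.card_eq_fintype_card, Module.natCard_eq_pow_finrank (K := K), hq,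
      Module.finrank_linearMap, hT]
    simp
  have c2 : Fintype.card (Fin 11 → V) = (2 ^ (2 * k + 1)) ^ 11 := by
    rw [Fintype.card_fun, Fintype.card_fin, ← Nat.card_eq_fintype_card,
      Module.natCard_eq_pow_finrank (K := K), hq, hn]
  rw [Finset.card_univ, Fintype.card_prod, c1, c2, ← pow_mul, ← pow_add]
  exact Nat.pow_le_pow_right (by norm_num) (by omega)

end Run7.h303.HP
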