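import Pool.Agent.Run7.h19.HP.Iface

set_option autoImplicit false

open Module Submodule Finset Pool.Agent.H99.SubDeg

namespace Run7.h303.HP

open scoped Classical in
theorem t_STEP1 : Run7.h19.HP.S_CUT → Run7.h19.HP.S_AP → Run7.h19.HP.S_N1 →
    Run7.h19.HP.S_STEP1 := by
  intro hCUT hAP hN1 K _ _ V _ _ _ k τ F T h hk8 hτk j hj hT P hP T' hT' hPT'
  by_contra hcon
  push Not at hcon
  have hk200 := h.hk
  obtain ⟨hP1, hP2, hP3⟩ := hP
  simp only [Run7.h19.HP.TT, Finset.mem_filter, Finset.mem_univ, true_and] at hT'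
  obtain ⟨hT'1, hT'2⟩ := hT'
  have hjk : j ≤ k := by omega
  have hj3 : 3 ≤ j := by omega
  set G := Run7.h19.HP.Fge F j with hG
  have hGF : G ⊆ F := Finset.filter_subset _ _
  have hGno : ∀ A ∈ G, ∀ S : Submodule K V, Transv F S → finrank K S < j → ¬ S ≤ A := by
    intro A hA
    rw [hG, Run7.h19.HP.Fge, Finset.mem_filter] at hA
    exact hA.2
  have hmeet : ∀ A ∈ G, ∀ B ∈ F, A ⊓ B ≠ ⊥ := fun A hA B hB => h.hF.1.2 A (hGF hA) B hB
  have hiter : ∀ (i : ℕ) (S : Submodule K V), finrank K S + i = j →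
      deg G S ≤ (2 ^ k - 1) ^ i * Run7.h19.HP.bb k j := by
    intro i S hS
    refine Run7.h19.HP.iter h G ⊥ j (Run7.h19.HP.bb k j) hmeet
      (fun A hA S' _ hS' hd => hGno A hA S' hS' hd) ?_ i S bot_le hS
    intro S' _ hS'
    have := Run7.h19.HP.deg_bb h G hGF S' (by omega)
    rwa [hS'] at this
  -- the exceptional points
  set A0 : Finset (Submodule K V) := (pts T).filter (fun Q => (P ⊔ Q) ⊓ T' ≠ ⊥) with hA0
  have hA0card : A0.card < 2 ^ (τ - 10) := by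
    by_contra hge
    push Not at hge
    have := hAP K V P T T' A0 (τ - 10) h.hq hP1 hP3 hPT' (Finset.filter_subset _ _)
      (fun Q hQ => by rw [hA0, Finset.mem_filter] at hQ; exact hQ.2) hge
    omega
  have hQ2 : ∀ Q ∈ pts T, finrank K (P ⊔ Q : Submodule K V) = 2 := by
    intro Q hQ
    simp only [pts, Finset.mem_filter, Finset.mem_univ, true_and] at hQ
    rw [finrank_sup_point P Q hQ.1, hP1]
    intro hle
    exact hP3 ((point_eq hQ.1 hP1 hle) ▸ hQ.2)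
  have hX : ∀ Q ∈ pts T, deg G (P ⊔ Q) ≤ (2 ^ k - 1) ^ (j - 2) * Run7.h19.HP.bb k j := by
    intro Q hQ
    exact hiter (j - 2) _ (by rw [hQ2 Q hQ]; omega)
  have hpT' : (pts T').card = 2 ^ j - 1 := by
    have h1 := pts_card T'
    rw [h.hq, hT'1] at h1
    simpa using h1
  have hpT : (pts T).card = 2 ^ τ - 1 := by
    have h1 := pts_card T
    rw [h.hq, h.hT] at h1
    simpa using h1
  have hY : ∀ Q ∈ pts T, (P ⊔ Q) ⊓ T' = ⊥ →
      deg G (P ⊔ Q) ≤ (2 ^ j - 1) * ((2 ^ k - 1) ^ (j - 3) * Run7.h19.HP.bb k j) := by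
    intro Q hQ hdis
    rw [← hpT']
    apply branching G (P ⊔ Q) T' (fun A hA => hT'2 A (hGF hA))
    intro R hR
    simp only [pts, Finset.mem_filter, Finset.mem_univ, true_and] at hR
    apply hiter
    rw [finrank_sup_point (P ⊔ Q) R hR.1, hQ2 Q hQ]
    · omega
    · intro hle
      have : R ≤ (P ⊔ Q) ⊓ T' := le_inf hle hR.2
      rw [hdis, le_bot_iff] at this
      exact point_ne_bot hR.1 this
  have hsum : deg G P ≤ 2 ^ (τ - 10) * ((2 ^ k - 1) ^ (j - 2) * Run7.h19.HP.bb k j)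
      + (2 ^ τ - 1) * ((2 ^ j - 1) * ((2 ^ k - 1) ^ (j - 3) * Run7.h19.HP.bb k j)) := by
    have h1 := Run7.h19.HP.branch_sum G P T (fun A hA => h.hTt A (hGF hA))
    rw [← Finset.sum_filter_add_sum_filter_not (pts T) (fun Q => (P ⊔ Q) ⊓ T' ≠ ⊥)] at h1
    have h2 : ∑ Q ∈ (pts T).filter (fun Q => (P ⊔ Q) ⊓ T' ≠ ⊥), deg G (P ⊔ Q)
        ≤ A0.card * ((2 ^ k - 1) ^ (j - 2) * Run7.h19.HP.bb k j) := by
      rw [← smul_eq_mul]
      apply Finset.sum_le_card_nsmul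
      intro Q hQ
      rw [Finset.mem_filter] at hQ
      exact hX Q hQ.1
    have h3 : ∑ Q ∈ (pts T).filter (fun Q => ¬ (P ⊔ Q) ⊓ T' ≠ ⊥), deg G (P ⊔ Q)
        ≤ (pts T).card * ((2 ^ j - 1) * ((2 ^ k - 1) ^ (j - 3) * Run7.h19.HP.bb k j)) := by
      refine (Finset.sum_le_card_nsmul _ _
        ((2 ^ j - 1) * ((2 ^ k - 1) ^ (j - 3) * Run7.h19.HP.bb k j)) ?_).trans ?_
      · intro Q hQ
        rw [Finset.mem_filter] at hQ
        exact hY Q hQ.1 (not_not.mp hQ.2)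
      · rw [smul_eq_mul]
        exact Nat.mul_le_mul_right _ (Finset.card_le_card (Finset.filter_subset _ _))
    rw [hpT] at h3
    have h4 := Nat.mul_le_mul_right ((2 ^ k - 1) ^ (j - 2) * Run7.h19.HP.bb k j) hA0card.le
    omega
  have hcut := hCUT K V k τ F T h j hjk P
  have hn := hN1 k τ j hk200 hk8 hτk hj
  have h5 := Nat.mul_le_mul_right (Run7.h19.HP.bb k τ) hT
  have h6 : deg F P ≤ Run7.h19.HP.bb k 2 := by
    calc deg F P ≤ deg G P + (Run7.h19.HP.Tlt F j).card * Run7.h19.HP.bb k τ := hcut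
      _ ≤ (2 ^ (τ - 10) * ((2 ^ k - 1) ^ (j - 2) * Run7.h19.HP.bb k j)
      + (2 ^ τ - 1) * ((2 ^ j - 1) * ((2 ^ k - 1) ^ (j - 3) * Run7.h19.HP.bb k j)))
        + 2 ^ (41 * k) * Run7.h19.HP.bb k τ := Nat.add_le_add hsum h5
      _ ≤ _ := hn
  exact absurd h6 (not_le.mpr hP2)

end Run7.h303.HP
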